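import Pool.Agent.Run7.h197.N.FC

/-!
Elementary lemmas for the equation `a x ^ p + b y ^ q = c z ^ r` with `S`-unit coefficients.
-/

set_option autoImplicit false

namespace Run7.h197.Z

open Finset Polynomial Run7.h197.N

/-- all prime factors are in `S` -/
def SUnit (S : Finset ℕ) (a : ℤ) : Prop := a ≠ 0 ∧ ∀ p : ℕ, p.Prime → (p : ℤ) ∣ a → p ∈ S

/-- the product of the prime factors -/
def rad (c : ℤ) : ℕ := ∏ p ∈ c.natAbs.primeFactors, p

lemma rad_ne (c : ℤ) : rad c ≠ 0 :=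
  Finset.prod_ne_zero_iff.2 fun _ hp => (Nat.prime_of_mem_primeFactors hp).ne_zero

lemma dvd_pow_of (S : Finset ℕ) (hS : ∀ p ∈ S, p.Prime) (n k : ℕ) (hn : n ≠ 0)
    (h : ∀ p, p.Prime → p ∣ n → p ∈ S) (hk : ∀ p, p.Prime → n.factorization p ≤ k) :
    n ∣ (∏ p ∈ S, p) ^ k := by
  have hQ : ∏ p ∈ S, p ≠ 0 := Finset.prod_ne_zero_iff.2 fun p hp => (hS p hp).ne_zero
  rw [← Nat.factorization_prime_le_iff_dvd hn (pow_ne_zero _ hQ)]
  intro p hp
  rw [Nat.factorization_pow, Finsupp.smul_apply, smul_eq_mul]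
  by_cases hd : p ∣ n
  · have h1 : p ∣ ∏ p ∈ S, p := Finset.dvd_prod_of_mem _ (h p hp hd)
    have h2 : 1 ≤ (∏ p ∈ S, p).factorization p := (hp.dvd_iff_one_le_factorization hQ).1 h1
    exact (hk p hp).trans (Nat.le_mul_of_pos_right _ h2)
  · rw [Nat.factorization_eq_zero_of_not_dvd hd]
    exact Nat.zero_le _

lemma dvd_rad_pow (c : ℤ) (hc : c ≠ 0) : c.natAbs ∣ rad c ^ c.natAbs := by
  have h0 : c.natAbs ≠ 0 := Int.natAbs_ne_zero.2 hc
  refine dvd_pow_of _ (fun p hp => Nat.prime_of_mem_primeFactors hp) _ _ h0 ?_ ?_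
  · intro p hp hd
    exact Nat.mem_primeFactors.2 ⟨hp, hd, h0⟩
  · intro p _
    exact (Nat.factorization_lt p h0).le

lemma dth (d : ℕ) (hd : 1 ≤ d) (n : ℕ) (hn : n ≠ 0) :
    ∃ n₀ α : ℕ, n = n₀ * α ^ d ∧ n₀ ≠ 0 ∧ α ≠ 0 ∧ ∀ p, p.Prime → ¬ p ^ d ∣ n₀ := by
  induction n using Nat.strong_induction_on with
  | _ n ih =>
    by_cases h : ∃ p, p.Prime ∧ p ^ d ∣ n
    · obtain ⟨p, hp, m, hm⟩ := h
      have hm0 : m ≠ 0 := by
        rintro rfl
        exact hn (by rw [hm, mul_zero])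
      have hp2 : 2 ≤ p ^ d := by
        calc 2 ≤ p := hp.two_le
          _ = p ^ 1 := (pow_one p).symm
          _ ≤ p ^ d := Nat.pow_le_pow_right hp.pos hd
      have hlt : m < n := by
        rw [hm]
        have := Nat.pos_of_ne_zero hm0
        nlinarith
      obtain ⟨n₀, α, h1, h2, h3, h4⟩ := ih m hlt hm0
      refine ⟨n₀, p * α, ?_, h2, mul_ne_zero hp.ne_zero h3, h4⟩
      rw [hm, h1, mul_pow]
      ring
    · push Not at h
      exact ⟨n, 1, by rw [one_pow, mul_one], hn, one_ne_zero, h⟩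

/-- decomposition of `S`-units modulo `d`-th powers -/
lemma sunit_dth (S : Finset ℕ) (d : ℕ) (hd : 1 ≤ d) (a : ℤ) (ha : SUnit S a) :
    ∃ a₀ α : ℤ, a = a₀ * α ^ d ∧ a₀ ≠ 0 ∧ α ≠ 0 ∧
      |a₀| ≤ ((∏ p ∈ S.filter Nat.Prime, p) ^ d : ℕ) := by
  obtain ⟨n₀, α, h1, h2, h3, h4⟩ := dth d hd a.natAbs (Int.natAbs_ne_zero.2 ha.1)
  refine ⟨a.sign * n₀, α, ?_, ?_, by exact_mod_cast h3, ?_⟩
  · conv_lhs => rw [← Int.sign_mul_natAbs a, h1]
    push_cast
    ring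
  · exact mul_ne_zero (fun h => ha.1 (Int.sign_eq_zero_iff_zero.1 h)) (by exact_mod_cast h2)
  · have h5 : |a.sign * (n₀ : ℤ)| = n₀ := by
      rw [abs_mul, Int.abs_sign_of_ne_zero ha.1, one_mul, Nat.abs_cast]
    rw [h5]
    have hQ : ∏ p ∈ S.filter Nat.Prime, p ≠ 0 :=
      Finset.prod_ne_zero_iff.2 fun p hp => (Finset.mem_filter.1 hp).2.ne_zero
    have h6 : n₀ ∣ (∏ p ∈ S.filter Nat.Prime, p) ^ d := by
      refine dvd_pow_of _ (fun p hp => (Finset.mem_filter.1 hp).2) _ _ h2 ?_ ?_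
      · intro p hp hd'
        refine Finset.mem_filter.2 ⟨ha.2 p hp ?_, hp⟩
        rw [Int.natCast_dvd, h1]
        exact hd'.mul_right _
      · intro p hp
        by_contra hcon
        push Not at hcon
        exact h4 p hp ((hp.pow_dvd_iff_le_factorization h2).2 hcon.le)
    exact_mod_cast Nat.le_of_dvd (Nat.pos_of_ne_zero (pow_ne_zero _ hQ)) h6

/-- an `S`-unit has radical at most the product of the primes of `S` -/
lemma rad_le (S : Finset ℕ) (c : ℤ) (hc : SUnit S c) :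
    rad c ≤ ∏ p ∈ S.filter Nat.Prime, p ∧ c.natAbs.primeFactors.card ≤ S.card := by
  have hsub : c.natAbs.primeFactors ⊆ S.filter Nat.Prime := by
    intro p hp
    have h1 := Nat.mem_primeFactors.1 hp
    refine Finset.mem_filter.2 ⟨hc.2 p h1.1 ?_, h1.1⟩
    rw [Int.natCast_dvd]
    exact h1.2.1
  refine ⟨?_, (Finset.card_le_card hsub).trans (Finset.card_filter_le _ _)⟩
  refine Nat.le_of_dvd (Nat.pos_of_ne_zero ?_) (Finset.prod_dvd_prod_of_subset _ _ _ hsub)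
  exact Finset.prod_ne_zero_iff.2 fun p hp => (Finset.mem_filter.1 hp).2.ne_zero

/-- a root of `x ^ d = ρ` which is close to `t` -/
lemma near_root (d : ℕ) (hd : 1 ≤ d) (t ρ : ℂ) :
    ∃ x : ℂ, x ^ d = ρ ∧ ‖t - x‖ ^ d ≤ ‖t ^ d - ρ‖ := by
  classical
  obtain ⟨q, hq⟩ : ∃ q : ℂ[X], q = X ^ d - C ρ := ⟨_, rfl⟩
  have hmon : q.Monic := by rw [hq]; exact monic_X_pow_sub_C ρ (by omega)
  have hdeg : q.natDegree = d := by rw [hq]; exact natDegree_X_pow_sub_C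
  have hs : q.Splits := IsAlgClosed.splits q
  have hcard : q.roots.card = d := by rw [← hdeg, hs.natDegree_eq_card_roots]
  have hne : q.roots.toFinset.Nonempty := by
    rw [Multiset.toFinset_nonempty, ← Multiset.card_pos, hcard]
    omega
  obtain ⟨α, hα, hmin⟩ := Finset.exists_min_image q.roots.toFinset (fun a => ‖t - a‖) hne
  have hα' : α ∈ q.roots := Multiset.mem_toFinset.1 hα
  have hroot : q.eval α = 0 := (mem_roots hmon.ne_zero).1 hα'
  refine ⟨α, ?_, ?_⟩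
  · rw [hq, eval_sub, eval_pow, eval_X, eval_C] at hroot
    exact sub_eq_zero.1 hroot
  · have e2 : q.eval t = (q.roots.map fun a => t - a).prod := by
      conv_lhs => rw [hs.eq_prod_roots]
      rw [hmon.leadingCoeff, map_one, one_mul, eval_multiset_prod, Multiset.map_map]
      apply congrArg
      apply Multiset.map_congr rfl
      intro a _
      simp
    have e3 : t ^ d - ρ = q.eval t := by
      rw [hq, eval_sub, eval_pow, eval_X, eval_C]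
    rw [e3, e2]
    have h3 : ∀ m : Multiset ℂ, (∀ a ∈ m, ‖t - α‖ ≤ ‖t - a‖) →
        ‖t - α‖ ^ m.card ≤ ‖(m.map fun a => t - a).prod‖ := by
      intro m
      induction m using Multiset.induction_on with
      | empty => intro _; simp
      | cons a m ih =>
        intro h
        rw [Multiset.card_cons, Multiset.map_cons, Multiset.prod_cons, norm_mul, pow_succ, mul_comm]
        exact mul_le_mul (h a (Multiset.mem_cons_self _ _))
          (ih fun b hb => h b (Multiset.mem_cons_of_mem hb)) (by positivity) (norm_nonneg _)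
    have h4 := h3 q.roots fun a ha => hmin a (Multiset.mem_toFinset.2 ha)
    rwa [hcard] at h4

/-- from the closeness of the terms to the closeness of the bases -/
lemma near_tr (d M : ℕ) (hd : 2 ≤ d) (A B X Y : ℤ) (hA : A ≠ 0) (hB : B ≠ 0) (hY : Y ≠ 0)
    (Λ : ℝ) (hB' : |(B : ℝ)| ≤ Λ) (hA' : |(A : ℝ)| ≤ Λ)
    (hbig : Λ ^ M ≤ max |(X : ℝ)| |(Y : ℝ)|) (w : Option ℂ)
    (hn : NearQ M (A * X ^ d) (B * Y ^ d) w) :
    ∃ w' : Option ℂ, (∀ x, w' = some x → ∃ v, w = some v ∧ x ^ d = v * B / A) ∧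
      NearQ (d * M) X Y w' := by
  obtain ⟨H, hH⟩ : ∃ H, H = max |(X : ℝ)| |(Y : ℝ)| := ⟨_, rfl⟩
  rw [← hH] at hbig
  have hAr : (1 : ℝ) ≤ |(A : ℝ)| := by exact_mod_cast Int.one_le_abs hA
  have hBr : (1 : ℝ) ≤ |(B : ℝ)| := by exact_mod_cast Int.one_le_abs hB
  have hYr : (1 : ℝ) ≤ |(Y : ℝ)| := by exact_mod_cast Int.one_le_abs hY
  have hΛ : 1 ≤ Λ := hAr.trans hA'
  have hH1 : 1 ≤ H := by rw [hH]; exact hYr.trans (le_max_right _ _)
  have hHd : Λ ^ M * H ≤ H ^ d := by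
    calc Λ ^ M * H ≤ H * H := mul_le_mul_of_nonneg_right hbig (by linarith)
      _ = H ^ 2 := by ring
      _ ≤ H ^ d := pow_le_pow_right₀ hH1 hd
  have hmax : H ^ d ≤ max |((A * X ^ d : ℤ) : ℝ)| |((B * Y ^ d : ℤ) : ℝ)| := by
    push_cast
    rw [abs_mul, abs_mul, abs_pow, abs_pow, hH]
    rcases le_total |(X : ℝ)| |(Y : ℝ)| with h | h
    · rw [max_eq_right h]
      exact (le_mul_of_one_le_left (by positivity) hBr).trans (le_max_right _ _)
    · rw [max_eq_left h]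
      exact (le_mul_of_one_le_left (by positivity) hAr).trans (le_max_left _ _)
  have hΛM : 0 < Λ ^ M := by positivity
  rcases w with _ | v
  · refine ⟨none, by simp, ?_⟩
    show max |(X : ℝ)| |(Y : ℝ)| * |(Y : ℝ)| ^ (d * M) ≤ |(X : ℝ)| ^ (d * M)
    have h1 : max |((A * X ^ d : ℤ) : ℝ)| |((B * Y ^ d : ℤ) : ℝ)| * |((B * Y ^ d : ℤ) : ℝ)| ^ M ≤
      |((A * X ^ d : ℤ) : ℝ)| ^ M := hn
    rw [← hH]
    have h2 : |((A * X ^ d : ℤ) : ℝ)| ^ M ≤ Λ ^ M * |(X : ℝ)| ^ (d * M) := by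
      push_cast
      rw [abs_mul, abs_pow, mul_pow, ← pow_mul]
      exact mul_le_mul_of_nonneg_right (pow_le_pow_left₀ (abs_nonneg _) hA' M) (by positivity)
    have h3 : |(Y : ℝ)| ^ (d * M) ≤ |((B * Y ^ d : ℤ) : ℝ)| ^ M := by
      push_cast
      rw [abs_mul, abs_pow, mul_pow, ← pow_mul]
      exact le_mul_of_one_le_left (by positivity) (one_le_pow₀ hBr)
    have h4 : Λ ^ M * (H * |(Y : ℝ)| ^ (d * M)) ≤ Λ ^ M * |(X : ℝ)| ^ (d * M) := by
      calc Λ ^ M * (H * |(Y : ℝ)| ^ (d * M)) = (Λ ^ M * H) * |(Y : ℝ)| ^ (d * M) := by ring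
        _ ≤ H ^ d * |((B * Y ^ d : ℤ) : ℝ)| ^ M := mul_le_mul hHd h3 (by positivity) (by positivity)
        _ ≤ _ := (mul_le_mul_of_nonneg_right hmax (by positivity)).trans (h1.trans h2)
    exact le_of_mul_le_mul_left h4 hΛM
  · have hAc : (A : ℂ) ≠ 0 := Int.cast_ne_zero.2 hA
    have hYc : (Y : ℂ) ≠ 0 := Int.cast_ne_zero.2 hY
    obtain ⟨x, hx1, hx2⟩ := near_root d (by omega) ((X : ℂ) / Y) (v * B / A)
    refine ⟨some x, fun y hy => ⟨v, rfl, by rw [← Option.some.inj hy]; exact hx1⟩, ?_⟩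
    show max |(X : ℝ)| |(Y : ℝ)| * ‖(X : ℂ) - x * (Y : ℂ)‖ ^ (d * M) ≤ |(Y : ℝ)| ^ (d * M)
    have h1 : max |((A * X ^ d : ℤ) : ℝ)| |((B * Y ^ d : ℤ) : ℝ)| *
      ‖((A * X ^ d : ℤ) : ℂ) - v * ((B * Y ^ d : ℤ) : ℂ)‖ ^ M ≤ |((B * Y ^ d : ℤ) : ℝ)| ^ M := hn
    rw [← hH]
    have e1 : (X : ℂ) - x * Y = ((X : ℂ) / Y - x) * Y := by field_simp
    have e2 : (((X : ℂ) / Y) ^ d - v * B / A) * (Y : ℂ) ^ d * A =
        ((A * X ^ d : ℤ) : ℂ) - v * ((B * Y ^ d : ℤ) : ℂ) := by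
      push_cast
      rw [div_pow]
      field_simp
    have h2 : ‖(X : ℂ) - x * Y‖ ^ d ≤ ‖((A * X ^ d : ℤ) : ℂ) - v * ((B * Y ^ d : ℤ) : ℂ)‖ := by
      rw [← e2, norm_mul, norm_mul, e1, norm_mul, mul_pow, norm_pow, Complex.norm_intCast A]
      have h5 : ‖(X : ℂ) / Y - x‖ ^ d * ‖(Y : ℂ)‖ ^ d ≤
          ‖((X : ℂ) / Y) ^ d - v * B / A‖ * ‖(Y : ℂ)‖ ^ d :=
        mul_le_mul_of_nonneg_right hx2 (by positivity)
      exact h5.trans (le_mul_of_one_le_right (by positivity) hAr)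
    have h3 : |((B * Y ^ d : ℤ) : ℝ)| ^ M ≤ Λ ^ M * |(Y : ℝ)| ^ (d * M) := by
      push_cast
      rw [abs_mul, abs_pow, mul_pow, ← pow_mul]
      exact mul_le_mul_of_nonneg_right (pow_le_pow_left₀ (abs_nonneg _) hB' M) (by positivity)
    have h4 : Λ ^ M * (H * ‖(X : ℂ) - x * Y‖ ^ (d * M)) ≤ Λ ^ M * |(Y : ℝ)| ^ (d * M) := by
      calc Λ ^ M * (H * ‖(X : ℂ) - x * Y‖ ^ (d * M))
          = (Λ ^ M * H) * (‖(X : ℂ) - x * Y‖ ^ d) ^ M := by rw [pow_mul]; ring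
        _ ≤ H ^ d * ‖((A * X ^ d : ℤ) : ℂ) - v * ((B * Y ^ d : ℤ) : ℂ)‖ ^ M :=
            mul_le_mul hHd (pow_le_pow_left₀ (by positivity) h2 M) (by positivity) (by positivity)
        _ ≤ _ := (mul_le_mul_of_nonneg_right hmax (by positivity)).trans (h1.trans h3)
    exact le_of_mul_le_mul_left h4 hΛM

end Run7.h197.Z
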