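import Pool.Agent.Run7.h197.Z.Elem
import Pool.Agent.Run7.h197.V.Final

/-!
The equation `A X ^ d + B Y ^ d = c z ^ r` where `c` has few prime factors.
-/

set_option autoImplicit false

namespace Run7.h197.Z

open NumberField IsDedekindDomain Finset Pool.Agent.H691R3 Pool.Agent.Y673.Loc Pool.Agent.Y673.Cnt
open Run7.h197.ST Height Pool.Agent.Y673.Loc.ZV Pool.Agent.K4H56.IF Polynomial Run7.h197.FMS Run7.h197.Q
open Run7.h197.N Run7.h197.V

/-- the orders of the values of `A t ^ d + B` -/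
lemma orders (d : ℕ) (hd : 1 ≤ d) (A B : ℤ) (hA : A ≠ 0) (hB : B ≠ 0) (X Y z c : ℤ) (r : ℕ)
    (hr : 1 ≤ r) (hcop : IsCoprime X Y) (hY : Y ≠ 0) (hz : z ≠ 0) (hc : c ≠ 0)
    (heq : A * X ^ d + B * Y ^ d = c * z ^ r) (G : ℚ[X]) (hGe : G = C (A : ℚ) * Polynomial.X ^ d + C (B : ℚ)) :
    G.eval ((X : ℚ) / (Y : ℚ)) ≠ 0 ∧
    PoleV ({v | (adv ℚ v).v (A : ℚ) ≠ 0} ∪ {v | (adv ℚ v).v (B : ℚ) ≠ 0}) r 1 (rad c) 1
      ((1 : ℚ[X]).eval ((X : ℚ) / (Y : ℚ)) / G.eval ((X : ℚ) / (Y : ℚ))) := by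
  have hYQ : (Y : ℚ) ≠ 0 := Int.cast_ne_zero.2 hY
  have hcQ : (c : ℚ) ≠ 0 := Int.cast_ne_zero.2 hc
  have hzQ : (z : ℚ) ≠ 0 := Int.cast_ne_zero.2 hz
  have hAQ : (A : ℚ) ≠ 0 := Int.cast_ne_zero.2 hA
  have hBQ : (B : ℚ) ≠ 0 := Int.cast_ne_zero.2 hB
  have hGe' : G.eval ((X : ℚ) / (Y : ℚ)) = (c : ℚ) * (z : ℚ) ^ r / (Y : ℚ) ^ d := by
    rw [hGe, eval_add, eval_mul, eval_C, eval_pow, eval_X, eval_C, eq_div_iff (pow_ne_zero _ hYQ)]
    have h1 : ((A * X ^ d + B * Y ^ d : ℤ) : ℚ) = ((c * z ^ r : ℤ) : ℚ) := by rw [heq]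
    push_cast at h1
    rw [← h1, div_pow]
    field_simp
  refine ⟨?_, ?_⟩
  · rw [hGe']
    exact div_ne_zero (mul_ne_zero hcQ (pow_ne_zero _ hzQ)) (pow_ne_zero _ hYQ)
  · intro v hv hvN hneg
    simp only [Set.mem_union, Set.mem_ofPred_eq, not_or, not_not] at hv
    obtain ⟨vA, vB⟩ := hv
    have hint : ∀ n : ℤ, n ≠ 0 → 0 ≤ (adv ℚ v).v (n : ℚ) := by
      intro n hn
      have := adv_nonneg ℚ v (n : 𝓞 ℚ) (Int.cast_ne_zero.2 hn)
      simpa using this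
    have vc : (adv ℚ v).v (c : ℚ) = 0 := by
      have hdiv : c ∣ ((rad c : ℕ) : ℤ) ^ c.natAbs := by
        have := dvd_rad_pow c hc
        rw [← Int.natCast_dvd_natCast, Int.natCast_natAbs] at this
        push_cast at this
        exact (abs_dvd _ _).1 this
      obtain ⟨u', hu'⟩ := hdiv
      have hq0 : ((rad c : ℕ) : ℤ) ^ c.natAbs ≠ 0 := pow_ne_zero _ (Nat.cast_ne_zero.2 (rad_ne c))
      have hu'0 : u' ≠ 0 := by
        rintro rfl
        rw [mul_zero] at hu'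
        exact hq0 hu'
      have hqQ : ((rad c : ℕ) : ℚ) ≠ 0 := Nat.cast_ne_zero.2 (rad_ne c)
      have h1 : (adv ℚ v).v (((rad c : ℕ) : ℚ) ^ c.natAbs) =
          (adv ℚ v).v (c : ℚ) + (adv ℚ v).v (u' : ℚ) := by
        rw [← (adv ℚ v).mul' _ _ hcQ (Int.cast_ne_zero.2 hu'0)]
        congr 1
        exact_mod_cast congrArg (fun n : ℤ => (n : ℚ)) hu'
      rw [((E_of_ne (w := adv ℚ v) hqQ).pow c.natAbs).2, hvN, mul_zero] at h1
      have h2 := hint c hc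
      have h3 := hint u' hu'0
      omega
    have hval : (adv ℚ v).v ((1 : ℚ[X]).eval ((X : ℚ) / (Y : ℚ)) / G.eval ((X : ℚ) / (Y : ℚ))) =
        (d : ℤ) * (adv ℚ v).v (Y : ℚ) - (r : ℤ) * (adv ℚ v).v (z : ℚ) := by
      have e1 := ((E_of_ne (w := adv ℚ v) hcQ).mul ((E_of_ne (w := adv ℚ v) hzQ).pow r))
      have e2 := (E_of_ne (w := adv ℚ v) hYQ).pow d
      have e3 := e2.div e1
      rw [vc, zero_add] at e3
      have e4 : (1 : ℚ[X]).eval ((X : ℚ) / (Y : ℚ)) / G.eval ((X : ℚ) / (Y : ℚ)) =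
          (Y : ℚ) ^ d / ((c : ℚ) * (z : ℚ) ^ r) := by
        rw [eval_one, hGe', one_div_div]
      rw [e4]
      exact e3.2
    rw [hval] at hneg ⊢
    have hzv : 0 < (adv ℚ v).v (z : ℚ) := by
      have h1 := hint z hz
      have h2 := hint Y hY
      by_contra hcon
      have h3 : (adv ℚ v).v (z : ℚ) = 0 := by omega
      rw [h3, mul_zero, sub_zero] at hneg
      have : (0 : ℤ) ≤ (d : ℤ) * (adv ℚ v).v (Y : ℚ) := by positivity
      omega
    have hYv : (adv ℚ v).v (Y : ℚ) = 0 := by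
      by_contra hcon
      have h2 := hint Y hY
      have hYpos : 1 ≤ (adv ℚ v).v (Y : ℚ) := by omega
      have gY : (adv ℚ v).G 1 (Y : ℚ) := Or.inr hYpos
      have gz : (adv ℚ v).G 1 ((c : ℚ) * (z : ℚ) ^ r) := by
        right
        rw [(adv ℚ v).mul' _ _ hcQ (pow_ne_zero _ hzQ), vc,
          ((E_of_ne (w := adv ℚ v) hzQ).pow r).2, zero_add]
        have h4 : (1 : ℤ) ≤ r := by exact_mod_cast hr
        nlinarith
      have gYd : (adv ℚ v).G 1 ((B : ℚ) * (Y : ℚ) ^ d) := by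
        right
        rw [(adv ℚ v).mul' _ _ hBQ (pow_ne_zero _ hYQ), vB,
          ((E_of_ne (w := adv ℚ v) hYQ).pow d).2, zero_add]
        have h4 : (1 : ℤ) ≤ d := by exact_mod_cast hd
        nlinarith
      have gX : (adv ℚ v).G 1 ((A : ℚ) * (X : ℚ) ^ d) := by
        have h5 : (A : ℚ) * (X : ℚ) ^ d = (c : ℚ) * (z : ℚ) ^ r - (B : ℚ) * (Y : ℚ) ^ d := by
          have h1 : ((A * X ^ d + B * Y ^ d : ℤ) : ℚ) = ((c * z ^ r : ℤ) : ℚ) := by rw [heq]
          push_cast at h1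
          linarith
        rw [h5]
        exact gz.sub gYd
      have gX1 : (adv ℚ v).G 1 (X : ℚ) := by
        by_cases hX : X = 0
        · left
          rw [hX, Int.cast_zero]
        · have hXQ : (X : ℚ) ≠ 0 := Int.cast_ne_zero.2 hX
          right
          have h6 := gX.resolve_left (mul_ne_zero hAQ (pow_ne_zero _ hXQ))
          rw [(adv ℚ v).mul' _ _ hAQ (pow_ne_zero _ hXQ), vA,
            ((E_of_ne (w := adv ℚ v) hXQ).pow d).2, zero_add] at h6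
          by_contra hcon2
          have h7 := hint X hX
          have h8 : (adv ℚ v).v (X : ℚ) = 0 := by omega
          rw [h8, mul_zero] at h6
          omega
      obtain ⟨s, t, hst⟩ := hcop
      have hG0 : ∀ n : ℤ, (adv ℚ v).G 0 (n : ℚ) := by
        intro n
        by_cases hn : n = 0
        · left
          rw [hn, Int.cast_zero]
        · exact Or.inr (hint n hn)
      have h9 : (adv ℚ v).G 1 ((s : ℚ) * (X : ℚ) + (t : ℚ) * (Y : ℚ)) := by
        have ha := (hG0 s).mul gX1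
        have hb := (hG0 t).mul gY
        rw [zero_add] at ha hb
        exact ha.add hb
      have h10 : (s : ℚ) * (X : ℚ) + (t : ℚ) * (Y : ℚ) = 1 := by exact_mod_cast hst
      rw [h10] at h9
      have h11 := h9.resolve_left one_ne_zero
      have h12 : (adv ℚ v).v (1 : ℚ) = 0 := by
        show -WithZero.log (v.valuation ℚ 1) = 0
        simp
      omega
    refine ⟨0, by rw [abs_zero]; exact val_nat_nonneg v 1 one_ne_zero, ?_⟩
    rw [hYv, mul_zero, zero_sub, Nat.cast_one, one_mul, add_zero]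
    exact (Dvd.intro _ rfl : (r : ℤ) ∣ (r : ℤ) * (adv ℚ v).v (z : ℚ)).neg_right

/-- the field generated by a finite set of algebraic numbers -/
lemma fin_adjoin (P : Finset ℂ) (hP : ∀ x ∈ P, IsAlgebraic ℚ x) :
    NumberField (IntermediateField.adjoin ℚ (P : Set ℂ)) := by
  have : FiniteDimensional ℚ (IntermediateField.adjoin ℚ (P : Set ℂ)) := by
    apply IntermediateField.finiteDimensional_adjoin
    intro x hx
    exact (hP x hx).isIntegral
  exact NumberField.of_module_finite ℚ _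

/-- **the bound** -/
theorem fcV (d : ℕ) (hd : 2 ≤ d) (A B : ℤ) (hA : A ≠ 0) (hB : B ≠ 0)
    (P : Finset ℂ) (hP : ∀ x ∈ P, IsAlgebraic ℚ x)
    (hP2 : 3 ≤ d ∨ ∀ x ∈ P, (A : ℂ) * x ^ d + B ≠ 0) (M s : ℕ) :
    ∃ κ : ℕ, ∀ (X Y z c : ℤ) (r : ℕ), IsCoprime X Y → Y ≠ 0 → z ≠ 0 → c ≠ 0 →
      c.natAbs.primeFactors.card ≤ s → A * X ^ d + B * Y ^ d = c * z ^ r →
      (∃ a : Option ℂ, (∀ x, a = some x → x ∈ P) ∧ NearQ M X Y a) →
      min (r : ℝ) (Real.log (max |(X : ℝ)| |(Y : ℝ)|)) ≤ (2 + Real.log (rad c)) ^ κ := by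
  classical
  obtain ⟨G, hGe⟩ : ∃ G : ℚ[X], G = C (A : ℚ) * Polynomial.X ^ d + C (B : ℚ) := ⟨_, rfl⟩
  have hG : G ≠ 0 := by
    intro h0
    have h1 := congrArg (Polynomial.eval 0) h0
    rw [hGe, eval_add, eval_mul, eval_C, eval_pow, eval_X, eval_C, eval_zero,
      zero_pow (by omega), mul_zero, zero_add] at h1
    exact hB (by exact_mod_cast h1)
  have hAQ : (A : ℚ) ≠ 0 := Int.cast_ne_zero.2 hA
  have hBQ : (B : ℚ) ≠ 0 := Int.cast_ne_zero.2 hB
  have hSf : ({v | (adv ℚ v).v (A : ℚ) ≠ 0} ∪ {v | (adv ℚ v).v (B : ℚ) ≠ 0} :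
      Set (HeightOneSpectrum (𝓞 ℚ))).Finite := (supp_finite hAQ).union (supp_finite hBQ)
  have hL := fin_adjoin P hP
  obtain ⟨ψ, hψ⟩ : ∃ ψ : (IntermediateField.adjoin ℚ (P : Set ℂ)) →+* ℂ,
    ψ = ((IntermediateField.adjoin ℚ (P : Set ℂ)).val : _ →+* ℂ) := ⟨_, rfl⟩
  -- the points of `P` in the field
  obtain ⟨pt, hpt⟩ : ∃ pt : P → IntermediateField.adjoin ℚ (P : Set ℂ), ∀ x, ψ (pt x) = x := by
    refine ⟨fun x => ⟨x.1, IntermediateField.subset_adjoin ℚ (P : Set ℂ) x.2⟩, fun x => ?_⟩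
    rw [hψ]
    rfl
  obtain ⟨Cb, hCb⟩ : ∃ Cb : ℕ, ∀ x, Real.log (hp (some (pt x))) ≤ Cb := by
    refine ⟨∑ x, ⌈Real.log (hp (some (pt x)))⌉₊, fun x => ?_⟩
    refine (Nat.le_ceil _).trans ?_
    exact_mod_cast Finset.single_le_sum (f := fun x => ⌈Real.log (hp (some (pt x)))⌉₊)
      (fun _ _ => Nat.zero_le _) (Finset.mem_univ x)
  have hlift : ∀ a : Option ℂ, (∀ x, a = some x → x ∈ P) →
      ∃ a' : Option (IntermediateField.adjoin ℚ (P : Set ℂ)), a'.map ψ = a ∧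
        Real.log (hp a') ≤ Cb := by
    intro a ha
    rcases a with _ | x
    · refine ⟨none, rfl, ?_⟩
      show Real.log 1 ≤ _
      rw [Real.log_one]
      exact Nat.cast_nonneg _
    · refine ⟨some (pt ⟨x, ha x rfl⟩), ?_, hCb _⟩
      show some (ψ (pt ⟨x, ha x rfl⟩)) = some x
      rw [hpt]
  obtain ⟨κ, hκ⟩ := final (1 : ℚ[X]) G isCoprime_one_left hG
    (IntermediateField.adjoin ℚ (P : Set ℂ)) _ hSf M 1 s le_rfl
  refine ⟨(Cb + 2) * κ, ?_⟩
  intro X Y z c r hcop hY hz hc hcs heq ⟨a, haP, hnear⟩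
  have l1 : 0 ≤ Real.log (rad c : ℝ) := Real.log_natCast_nonneg _
  obtain ⟨R, hR⟩ : ∃ R, R = 2 + Real.log (rad c : ℝ) := ⟨_, rfl⟩
  rw [← hR]
  have hR2 : 2 ≤ R := by rw [hR]; linarith
  rcases Nat.eq_zero_or_pos r with hr0 | hr
  · refine (min_le_left _ _).trans ?_
    rw [hr0, Nat.cast_zero]
    positivity
  obtain ⟨h1, h2⟩ := orders d (by omega) A B hA hB X Y z c r hr hcop hY hz hc heq G hGe
  obtain ⟨a', ha', hCa⟩ := hlift a haP
  have hcomp : ψ.comp (algebraMap ℚ (IntermediateField.adjoin ℚ (P : Set ℂ))) = algebraMap ℚ ℂ :=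
    Subsingleton.elim _ _
  have h3 := hκ r 1 (rad c) ((X : ℚ) / (Y : ℚ)) a' ψ one_ne_zero (rad_ne c)
    (by
      rw [rad, Nat.primeFactors_prod fun p hp => Nat.prime_of_mem_primeFactors hp]
      exact hcs)
    (by
      rw [hcomp, ha', hGe]
      apply poles hd hA hB
      rcases hP2 with h | h
      · exact Or.inl h
      · exact Or.inr fun x hx => h x (haP x hx))
    (by
      have hn := near_of hY hcop hnear
      rw [← ha'] at hn
      rcases a' with _ | a'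
      · have hn' : mulHeight₁ ((X : ℚ) / (Y : ℚ)) ≤ ‖(algebraMap ℚ ℂ) ((X : ℚ) / (Y : ℚ))‖ ^ M := hn
        rw [← hcomp] at hn'
        exact hn'
      · have hn' : mulHeight₁ ((X : ℚ) / (Y : ℚ)) *
          ‖(algebraMap ℚ ℂ) ((X : ℚ) / (Y : ℚ)) - ψ a'‖ ^ M ≤ 1 := hn
        rw [← hcomp] at hn'
        exact hn') h1 h2
  rw [height_div hY hcop, Nat.cast_one, Real.log_one, add_zero, ← hR] at h3
  refine h3.trans ?_
  have l4 : 0 ≤ Real.log (hp a') := Real.log_nonneg (one_le_hp a')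
  rw [pow_mul]
  apply pow_le_pow_left₀ (by linarith)
  have h5 : (Cb : ℝ) + 1 ≤ 2 ^ (Cb + 1) := by
    have : Cb + 1 ≤ 2 ^ (Cb + 1) := Nat.lt_two_pow_self.le
    exact_mod_cast this
  calc R + Real.log (hp a') ≤ R + Cb := by linarith
    _ ≤ (Cb + 1) * R := by nlinarith [(Nat.cast_nonneg Cb : (0 : ℝ) ≤ Cb)]
    _ ≤ 2 ^ (Cb + 1) * R := mul_le_mul_of_nonneg_right h5 (by linarith)
    _ ≤ R ^ (Cb + 1) * R :=
        mul_le_mul_of_nonneg_right (pow_le_pow_left₀ (by norm_num) hR2 _) (by linarith)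
    _ = R ^ (Cb + 2) := by rw [← pow_succ]

end Run7.h197.Z
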