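import Pool.Agent.Run7.h197.Z.SFC

/-!
Two exponents with a common factor: coefficients and bases with common factors.
-/

set_option autoImplicit false

namespace Run7.h197.Z

open Finset Run7.h197.N

lemma SUnit.mul {S : Finset ℕ} {a b : ℤ} (ha : SUnit S a) (hb : SUnit S b) : SUnit S (a * b) := by
  refine ⟨mul_ne_zero ha.1 hb.1, fun p hp h => ?_⟩
  rcases (Nat.prime_iff_prime_int.1 hp).dvd_or_dvd h with h | h
  · exact ha.2 p hp h
  · exact hb.2 p hp h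

lemma SUnit.pow {S : Finset ℕ} {a : ℤ} (ha : SUnit S a) (n : ℕ) : SUnit S (a ^ n) := by
  refine ⟨pow_ne_zero _ ha.1, fun p hp h => ?_⟩
  exact ha.2 p hp ((Nat.prime_iff_prime_int.1 hp).dvd_of_dvd_pow h)

lemma SUnit.of_dvd {S : Finset ℕ} {a b : ℤ} (ha : SUnit S a) (h : b ∣ a) : SUnit S b := by
  refine ⟨fun h0 => ha.1 (zero_dvd_iff.1 (h0 ▸ h)), fun p hp h1 => ha.2 p hp (h1.trans h)⟩

/-- the part of a number composed of the primes of `S` -/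
lemma exists_part (S : Finset ℕ) (x : ℕ) (hx : x ≠ 0) :
    ∃ s x' : ℕ, x = s * x' ∧ SUnit S (s : ℤ) ∧ ∀ l : ℕ, l.Prime → l ∈ S → ¬ l ∣ x' := by
  induction x using Nat.strong_induction_on with
  | _ x ih =>
    by_cases h : ∃ l : ℕ, l.Prime ∧ l ∈ S ∧ l ∣ x
    · obtain ⟨l, hl, hlS, m, rfl⟩ := h
      have hm : m ≠ 0 := by
        rintro rfl
        simp at hx
      obtain ⟨s, x', h1, h2, h3⟩ := ih m (by
        have := hl.two_le
        have := Nat.pos_of_ne_zero hm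
        nlinarith) hm
      refine ⟨l * s, x', by rw [h1]; ring, ?_, h3⟩
      push_cast
      refine SUnit.mul ⟨by exact_mod_cast hl.ne_zero, fun p hp hpl => ?_⟩ h2
      have h4 : p ∣ l := by exact_mod_cast hpl
      rw [(Nat.prime_dvd_prime_iff_eq hp hl).1 h4]
      exact hlS
    · push Not at h
      refine ⟨1, x, (one_mul x).symm, ⟨by norm_num, fun p hp hpl => ?_⟩, fun l hl hlS => h l hl hlS⟩
      have h4 : p ∣ 1 := by exact_mod_cast hpl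
      exact absurd (Nat.dvd_one.1 h4) hp.one_lt.ne'

lemma near_scale (M : ℕ) (g : ℕ) (hg : g ≠ 0) (U V : ℤ) (w : Option ℂ)
    (h : NearQ M (g * U) (g * V) w) : NearQ M U V w := by
  have hg1 : (1 : ℝ) ≤ g := by exact_mod_cast Nat.one_le_iff_ne_zero.2 hg
  have hgM : (0 : ℝ) < (g : ℝ) ^ M := by positivity
  have hmax : max |(U : ℝ)| |(V : ℝ)| ≤ max |((g * U : ℤ) : ℝ)| |((g * V : ℤ) : ℝ)| := by
    push_cast
    rw [abs_mul, abs_mul, Nat.abs_cast, ← mul_max_of_nonneg _ _ (by positivity)]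
    have h0 : 0 ≤ max |(U : ℝ)| |(V : ℝ)| := le_max_of_le_left (abs_nonneg _)
    nlinarith
  rcases w with _ | w
  · have h1 : max |((g * U : ℤ) : ℝ)| |((g * V : ℤ) : ℝ)| * |((g * V : ℤ) : ℝ)| ^ M ≤
        |((g * U : ℤ) : ℝ)| ^ M := h
    show max |(U : ℝ)| |(V : ℝ)| * |(V : ℝ)| ^ M ≤ |(U : ℝ)| ^ M
    have h2 := (mul_le_mul_of_nonneg_right hmax (pow_nonneg (abs_nonneg ((g * V : ℤ) : ℝ)) M)).trans h1
    push_cast at h2
    rw [abs_mul, abs_mul, Nat.abs_cast, mul_pow, mul_pow] at h2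
    have h3 : (g : ℝ) ^ M * (max |(U : ℝ)| |(V : ℝ)| * |(V : ℝ)| ^ M) ≤ (g : ℝ) ^ M * |(U : ℝ)| ^ M := by
      linarith
    exact le_of_mul_le_mul_left h3 hgM
  · have h1 : max |((g * U : ℤ) : ℝ)| |((g * V : ℤ) : ℝ)| *
        ‖((g * U : ℤ) : ℂ) - w * ((g * V : ℤ) : ℂ)‖ ^ M ≤ |((g * V : ℤ) : ℝ)| ^ M := h
    show max |(U : ℝ)| |(V : ℝ)| * ‖(U : ℂ) - w * (V : ℂ)‖ ^ M ≤ |(V : ℝ)| ^ M
    have h2 := (mul_le_mul_of_nonneg_right hmax (pow_nonneg (norm_nonneg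
      (((g * U : ℤ) : ℂ) - w * ((g * V : ℤ) : ℂ))) M)).trans h1
    have e1 : ((g * U : ℤ) : ℂ) - w * ((g * V : ℤ) : ℂ) = (g : ℂ) * ((U : ℂ) - w * V) := by
      push_cast
      ring
    rw [e1, norm_mul, Complex.norm_natCast] at h2
    push_cast at h2
    rw [abs_mul, Nat.abs_cast, mul_pow, mul_pow] at h2
    have h3 : (g : ℝ) ^ M * (max |(U : ℝ)| |(V : ℝ)| * ‖(U : ℂ) - w * (V : ℂ)‖ ^ M) ≤
        (g : ℝ) ^ M * |(V : ℝ)| ^ M := by
      linarith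
    exact le_of_mul_le_mul_left h3 hgM

/-- **the bound for terms with common factors** -/
theorem terms (S : Finset ℕ) (d : ℕ) (hd : 2 ≤ d) (P : Finset ℂ) (hP : ∀ w ∈ P, IsAlgebraic ℚ w)
    (hP2 : d = 2 → (-1 : ℂ) ∉ P) (M : ℕ) :
    ∃ N r₀ : ℕ, ∀ (a b c : ℤ) (x y z p q r : ℕ), SUnit S a → SUnit S b → SUnit S c →
      x ≠ 0 → y ≠ 0 → z ≠ 0 → 0 < p → 0 < q → d ∣ p → d ∣ q → r₀ ≤ r →
      (∀ l : ℕ, l.Prime → l ∉ S → l ∣ x → l ∣ y → l ∣ z → False) →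
      a * (x : ℤ) ^ p + b * (y : ℤ) ^ q = c * (z : ℤ) ^ r →
      (∃ w : Option ℂ, (∀ v, w = some v → v ∈ P) ∧ NearQ M (a * (x : ℤ) ^ p) (b * (y : ℤ) ^ q) w) →
      ∃ g : ℕ, (g : ℤ) ∣ a * (x : ℤ) ^ p ∧ (g : ℤ) ∣ b * (y : ℤ) ^ q ∧ (g : ℤ) ∣ c * (z : ℤ) ^ r ∧
        |a * (x : ℤ) ^ p| ≤ g * N ∧ |b * (y : ℤ) ^ q| ≤ g * N := by
  classical
  obtain ⟨κ, hκ⟩ := sfc S d hd P hP hP2 M S.card
  obtain ⟨Q, hQ⟩ : ∃ Q : ℕ, Q = ∏ p ∈ S.filter Nat.Prime, p := ⟨_, rfl⟩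
  obtain ⟨R, hR⟩ : ∃ R : ℝ, R = (2 + Real.log Q) ^ κ := ⟨_, rfl⟩
  obtain ⟨N, hN⟩ : ∃ N : ℕ, Real.exp R ≤ N := exists_nat_ge _
  refine ⟨N, ⌈R⌉₊ + 1, ?_⟩
  intro a b c x y z p q r ha hb hc hx hy hz hp hq hdp hdq hr hcop heq ⟨w, hwP, hnear⟩
  -- the parts of the bases
  obtain ⟨sx, x', ex, hsx, hx'⟩ := exists_part S x hx
  obtain ⟨sy, y', ey, hsy, hy'⟩ := exists_part S y hy
  obtain ⟨sz, z', ez, hsz, hz'⟩ := exists_part S z hz
  obtain ⟨α, hα⟩ : ∃ α : ℤ, α = a * (sx : ℤ) ^ p := ⟨_, rfl⟩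
  obtain ⟨β, hβ⟩ : ∃ β : ℤ, β = b * (sy : ℤ) ^ q := ⟨_, rfl⟩
  obtain ⟨γ, hγ⟩ : ∃ γ : ℤ, γ = c * (sz : ℤ) ^ r := ⟨_, rfl⟩
  have hαS : SUnit S α := by rw [hα]; exact ha.mul (hsx.pow p)
  have hβS : SUnit S β := by rw [hβ]; exact hb.mul (hsy.pow q)
  have hγS : SUnit S γ := by rw [hγ]; exact hc.mul (hsz.pow r)
  have hx'0 : (x' : ℤ) ≠ 0 := by
    intro h0
    have : x' = 0 := by exact_mod_cast h0
    rw [this, mul_zero] at ex
    exact hx ex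
  have hy'0 : (y' : ℤ) ≠ 0 := by
    intro h0
    have : y' = 0 := by exact_mod_cast h0
    rw [this, mul_zero] at ey
    exact hy ey
  have hz'0 : (z' : ℤ) ≠ 0 := by
    intro h0
    have : z' = 0 := by exact_mod_cast h0
    rw [this, mul_zero] at ez
    exact hz ez
  have eα : a * (x : ℤ) ^ p = α * (x' : ℤ) ^ p := by rw [hα, ex]; push_cast; ring
  have eβ : b * (y : ℤ) ^ q = β * (y' : ℤ) ^ q := by rw [hβ, ey]; push_cast; ring
  have eγ : c * (z : ℤ) ^ r = γ * (z' : ℤ) ^ r := by rw [hγ, ez]; push_cast; ring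
  rw [eα, eβ] at heq hnear ⊢
  rw [eγ] at heq ⊢
  -- the common factor
  obtain ⟨g, hg⟩ : ∃ g, g = Int.gcd α (Int.gcd β γ) := ⟨_, rfl⟩
  have hg0 : g ≠ 0 := by
    rw [hg]
    intro h0
    exact hαS.1 (Int.gcd_eq_zero_iff.1 h0).1
  have gα : (g : ℤ) ∣ α := by rw [hg]; exact Int.gcd_dvd_left _ _
  have gβγ : (g : ℤ) ∣ (Int.gcd β γ : ℤ) := by rw [hg]; exact Int.gcd_dvd_right _ _
  have gβ : (g : ℤ) ∣ β := gβγ.trans (Int.gcd_dvd_left _ _)
  have gγ : (g : ℤ) ∣ γ := gβγ.trans (Int.gcd_dvd_right _ _)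
  refine ⟨g, gα.mul_right _, gβ.mul_right _, gγ.mul_right _, ?_⟩
  obtain ⟨α', hα'⟩ := gα
  obtain ⟨β', hβ'⟩ := gβ
  obtain ⟨γ', hγ'⟩ := gγ
  have hgZ : (g : ℤ) ≠ 0 := by exact_mod_cast hg0
  have sα' : SUnit S α' := hαS.of_dvd ⟨g, by rw [hα']; ring⟩
  have sβ' : SUnit S β' := hβS.of_dvd ⟨g, by rw [hβ']; ring⟩
  have sγ' : SUnit S γ' := hγS.of_dvd ⟨g, by rw [hγ']; ring⟩
  have heq' : α' * (x' : ℤ) ^ p + β' * (y' : ℤ) ^ q = γ' * (z' : ℤ) ^ r := by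
    apply mul_left_cancel₀ hgZ
    rw [hα', hβ', hγ'] at heq
    linear_combination heq
  have hone : Int.gcd (α' * x') (Int.gcd (β' * y') (γ' * z')) = 1 := by
    by_contra hne
    obtain ⟨l, hl, hld⟩ := Nat.exists_prime_and_dvd hne
    have hlp : Prime (l : ℤ) := Nat.prime_iff_prime_int.1 hl
    have d1 : (l : ℤ) ∣ α' * x' := (Int.natCast_dvd_natCast.2 hld).trans (Int.gcd_dvd_left _ _)
    have d0 : (l : ℤ) ∣ (Int.gcd (β' * y') (γ' * z') : ℤ) :=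
      (Int.natCast_dvd_natCast.2 hld).trans (Int.gcd_dvd_right _ _)
    have d2 : (l : ℤ) ∣ β' * y' := d0.trans (Int.gcd_dvd_left _ _)
    have d3 : (l : ℤ) ∣ γ' * z' := d0.trans (Int.gcd_dvd_right _ _)
    by_cases hlS : l ∈ S
    · have f1 : (l : ℤ) ∣ α' := (hlp.dvd_or_dvd d1).resolve_right fun h =>
        hx' l hl hlS (by exact_mod_cast h)
      have f2 : (l : ℤ) ∣ β' := (hlp.dvd_or_dvd d2).resolve_right fun h =>
        hy' l hl hlS (by exact_mod_cast h)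
      have f3 : (l : ℤ) ∣ γ' := (hlp.dvd_or_dvd d3).resolve_right fun h =>
        hz' l hl hlS (by exact_mod_cast h)
      have f4 : ((g * l : ℕ) : ℤ) ∣ (Int.gcd β γ : ℤ) := by
        apply Int.dvd_coe_gcd
        · rw [hβ']
          push_cast
          exact mul_dvd_mul_left _ f2
        · rw [hγ']
          push_cast
          exact mul_dvd_mul_left _ f3
      have f5 : ((g * l : ℕ) : ℤ) ∣ (Int.gcd α (Int.gcd β γ) : ℤ) := by
        apply Int.dvd_coe_gcd _ f4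
        rw [hα']
        push_cast
        exact mul_dvd_mul_left _ f1
      rw [← hg] at f5
      have f6 : g * l ∣ g := by exact_mod_cast f5
      have f7 := Nat.le_of_dvd (Nat.pos_of_ne_zero hg0) f6
      have := hl.two_le
      have := Nat.pos_of_ne_zero hg0
      nlinarith
    · have f1 : (l : ℤ) ∣ x' := (hlp.dvd_or_dvd d1).resolve_left fun h => hlS (sα'.2 l hl h)
      have f2 : (l : ℤ) ∣ y' := (hlp.dvd_or_dvd d2).resolve_left fun h => hlS (sβ'.2 l hl h)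
      have f3 : (l : ℤ) ∣ z' := (hlp.dvd_or_dvd d3).resolve_left fun h => hlS (sγ'.2 l hl h)
      refine hcop l hl hlS ?_ ?_ ?_
      · rw [ex]; exact (show l ∣ x' by exact_mod_cast f1).mul_left _
      · rw [ey]; exact (show l ∣ y' by exact_mod_cast f2).mul_left _
      · rw [ez]; exact (show l ∣ z' by exact_mod_cast f3).mul_left _
  have hnear' : NearQ M (α' * (x' : ℤ) ^ p) (β' * (y' : ℤ) ^ q) w := by
    apply near_scale M g hg0
    rw [hα', hβ', mul_assoc, mul_assoc] at hnear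
    exact hnear
  obtain ⟨h1, h2⟩ := rad_le S γ' sγ'
  rw [← hQ] at h1
  have h3 := hκ α' β' γ' x' y' z' p q r sα' sβ' sγ'.1 h2 hx'0 hy'0 hz'0 hp hq hdp hdq hone heq'
    ⟨w, hwP, hnear'⟩
  have hrad : (0 : ℝ) < rad γ' := by exact_mod_cast Nat.pos_of_ne_zero (rad_ne γ')
  have h4 : (2 + Real.log (rad γ')) ^ κ ≤ R := by
    rw [hR]
    have l1 : 0 ≤ Real.log (rad γ' : ℝ) := Real.log_natCast_nonneg _
    apply pow_le_pow_left₀ (by linarith)
    have l2 : Real.log (rad γ' : ℝ) ≤ Real.log Q := Real.log_le_log hrad (by exact_mod_cast h1)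
    linarith
  have h5 : R < r := by
    have g1 := Nat.le_ceil R
    have g2 : ((⌈R⌉₊ + 1 : ℕ) : ℝ) ≤ r := by exact_mod_cast hr
    push_cast at g2
    linarith
  have h6 : Real.log (max |((α' * (x' : ℤ) ^ p : ℤ) : ℝ)| |((β' * (y' : ℤ) ^ q : ℤ) : ℝ)|) ≤ R := by
    rcases min_le_iff.1 (h3.trans h4) with h | h
    · exact absurd h (not_le.2 h5)
    · exact h
  have h7 : max |((α' * (x' : ℤ) ^ p : ℤ) : ℝ)| |((β' * (y' : ℤ) ^ q : ℤ) : ℝ)| ≤ N := by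
    refine le_trans ?_ hN
    have g0 : 0 < max |((α' * (x' : ℤ) ^ p : ℤ) : ℝ)| |((β' * (y' : ℤ) ^ q : ℤ) : ℝ)| :=
      lt_max_of_lt_left (abs_pos.2 (Int.cast_ne_zero.2 (mul_ne_zero sα'.1 (pow_ne_zero _ hx'0))))
    rw [← Real.exp_log g0]
    exact Real.exp_le_exp.2 h6
  have h8 : |α' * (x' : ℤ) ^ p| ≤ N := by exact_mod_cast (le_max_left _ _).trans h7
  have h9 : |β' * (y' : ℤ) ^ q| ≤ N := by exact_mod_cast (le_max_right _ _).trans h7
  constructor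
  · rw [hα', mul_assoc, abs_mul, Nat.abs_cast]
    exact mul_le_mul_of_nonneg_left h8 (by positivity)
  · rw [hβ', mul_assoc, abs_mul, Nat.abs_cast]
    exact mul_le_mul_of_nonneg_left h9 (by positivity)

/-- the common factor of two powers with small `gcd / rad` -/
lemma gcd_small (Q x y p q : ℕ) (hx : x ≠ 0) (hp : 2 ≤ p) (hq : 2 ≤ q)
    (h : Nat.gcd (x ^ p) (y ^ q) ≤ Q * ∏ l ∈ (Nat.gcd (x ^ p) (y ^ q)).primeFactors, l) :
    (∀ l : ℕ, l.Prime → l ∣ x → l ∣ y → l ≤ Q) ∧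
      Nat.gcd (x ^ p) (y ^ q) ≤ Q * ∏ l ∈ (Finset.range (Q + 1)).filter Nat.Prime, l := by
  obtain ⟨g, hg⟩ : ∃ g, g = Nat.gcd (x ^ p) (y ^ q) := ⟨_, rfl⟩
  rw [← hg] at h ⊢
  have hg0 : g ≠ 0 := by
    rw [hg]
    intro h0
    exact pow_ne_zero p hx (Nat.gcd_eq_zero_iff.1 h0).1
  have key : ∀ l : ℕ, l.Prime → l ∣ x → l ∣ y → l ≤ Q := by
    intro l hl h1 h2
    have h3 : l ^ 2 ∣ g := by
      rw [hg]
      apply Nat.dvd_gcd
      · exact (pow_dvd_pow l hp).trans (pow_dvd_pow_of_dvd h1 p)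
      · exact (pow_dvd_pow l hq).trans (pow_dvd_pow_of_dvd h2 q)
    have h4 : l ∈ g.primeFactors := Nat.mem_primeFactors.2 ⟨hl, (dvd_pow_self l (by norm_num)).trans h3, hg0⟩
    have h5 : ∏ i ∈ g.primeFactors.erase l, i ∣ g :=
      (Finset.prod_dvd_prod_of_subset _ _ (fun i => i) (Finset.erase_subset _ _)).trans
        (Nat.prod_primeFactors_dvd g)
    have h6 : Nat.Coprime (l ^ 2) (∏ i ∈ g.primeFactors.erase l, i) := by
      apply Nat.Coprime.pow_left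
      apply Nat.Coprime.prod_right
      intro i hi
      rw [Finset.mem_erase] at hi
      exact (Nat.coprime_primes hl (Nat.prime_of_mem_primeFactors hi.2)).2 hi.1.symm
    have h7 : l ^ 2 * ∏ i ∈ g.primeFactors.erase l, i ∣ g := Nat.Coprime.mul_dvd_of_dvd_of_dvd h6 h3 h5
    have h8 : l ^ 2 * ∏ i ∈ g.primeFactors.erase l, i = l * ∏ i ∈ g.primeFactors, i := by
      rw [← Finset.mul_prod_erase _ _ h4]
      ring
    rw [h8] at h7
    have h9 := (Nat.le_of_dvd (Nat.pos_of_ne_zero hg0) h7).trans h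
    have h10 : 0 < ∏ i ∈ g.primeFactors, i :=
      Finset.prod_pos fun i hi => (Nat.prime_of_mem_primeFactors hi).pos
    exact le_of_mul_le_mul_right h9 h10
  refine ⟨key, h.trans (Nat.mul_le_mul_left _ ?_)⟩
  have hsub : g.primeFactors ⊆ (Finset.range (Q + 1)).filter Nat.Prime := by
    intro l hl
    have hlp := Nat.prime_of_mem_primeFactors hl
    have h1 := Nat.dvd_of_mem_primeFactors hl
    rw [hg] at h1
    rw [Finset.mem_filter, Finset.mem_range]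
    refine ⟨Nat.lt_succ_of_le (key l hlp ?_ ?_), hlp⟩
    · exact hlp.dvd_of_dvd_pow (h1.trans (Nat.gcd_dvd_left _ _))
    · exact hlp.dvd_of_dvd_pow (h1.trans (Nat.gcd_dvd_right _ _))
  exact Nat.le_of_dvd (Finset.prod_pos fun i hi => (Finset.mem_filter.1 hi).2.pos)
    (Finset.prod_dvd_prod_of_subset _ _ _ hsub)

end Run7.h197.Z
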