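import Pool.Agent.Run7.h197.Z.FCV

/-!
Generalised Fermat equations with `S`-unit coefficients, two exponents with a common factor.
-/

set_option autoImplicit false

namespace Run7.h197.Z

open Finset Polynomial Run7.h197.N

lemma gcd_cop (a b c x y z : ℤ) (p q r : ℕ) (hp : 0 < p) (hq : 0 < q)
    (hg : Int.gcd (a * x) (Int.gcd (b * y) (c * z)) = 1) (heq : a * x ^ p + b * y ^ q = c * z ^ r)
    (l : ℕ) (hl : l.Prime) (h1 : (l : ℤ) ∣ a * x) (h2 : (l : ℤ) ∣ b * y) : False := by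
  have hlp : Prime (l : ℤ) := Nat.prime_iff_prime_int.1 hl
  have h3 : (l : ℤ) ∣ a * x ^ p := by
    rcases hlp.dvd_or_dvd h1 with h | h
    · exact h.mul_right _
    · exact (dvd_pow h hp.ne').mul_left _
  have h4 : (l : ℤ) ∣ b * y ^ q := by
    rcases hlp.dvd_or_dvd h2 with h | h
    · exact h.mul_right _
    · exact (dvd_pow h hq.ne').mul_left _
  have h5 : (l : ℤ) ∣ c * z := by
    have h6 : (l : ℤ) ∣ c * z ^ r := by rw [← heq]; exact dvd_add h3 h4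
    rcases hlp.dvd_or_dvd h6 with h | h
    · exact h.mul_right _
    · exact (hlp.dvd_of_dvd_pow h).mul_left _
  have h7 : (l : ℤ) ∣ (Int.gcd (b * y) (c * z) : ℤ) := Int.dvd_coe_gcd h2 h5
  have h8 : (l : ℤ) ∣ (Int.gcd (a * x) (Int.gcd (b * y) (c * z)) : ℤ) := Int.dvd_coe_gcd h1 h7
  rw [hg] at h8
  exact hl.one_lt.ne' (by exact_mod_cast Int.eq_one_of_dvd_one (by positivity) h8)

/-- **the bound** -/
theorem sfc (S : Finset ℕ) (d : ℕ) (hd : 2 ≤ d) (P : Finset ℂ) (hP : ∀ w ∈ P, IsAlgebraic ℚ w)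
    (hP2 : d = 2 → (-1 : ℂ) ∉ P) (M s : ℕ) :
    ∃ κ : ℕ, ∀ (a b c x y z : ℤ) (p q r : ℕ), SUnit S a → SUnit S b → c ≠ 0 →
      c.natAbs.primeFactors.card ≤ s → x ≠ 0 → y ≠ 0 → z ≠ 0 → 0 < p → 0 < q → d ∣ p → d ∣ q →
      Int.gcd (a * x) (Int.gcd (b * y) (c * z)) = 1 → a * x ^ p + b * y ^ q = c * z ^ r →
      (∃ w : Option ℂ, (∀ v, w = some v → v ∈ P) ∧ NearQ M (a * x ^ p) (b * y ^ q) w) →
      min (r : ℝ) (Real.log (max |((a * x ^ p : ℤ) : ℝ)| |((b * y ^ q : ℤ) : ℝ)|)) ≤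
        (2 + Real.log (rad c)) ^ κ := by
  classical
  obtain ⟨Λ, hΛ⟩ : ∃ Λ : ℕ, Λ = (∏ p ∈ S.filter Nat.Prime, p) ^ d := ⟨_, rfl⟩
  have hΛ1 : 1 ≤ Λ := by
    rw [hΛ]
    refine Nat.one_le_iff_ne_zero.2 (pow_ne_zero _ ?_)
    exact Finset.prod_ne_zero_iff.2 fun p hp => (Finset.mem_filter.1 hp).2.ne_zero
  -- the roots
  obtain ⟨PP, hPP⟩ : ∃ PP : ℤ → ℤ → Finset ℂ, ∀ A B x, x ∈ PP A B ↔ ∃ v ∈ P, x ^ d = v * B / A := by
    refine ⟨fun A B => P.biUnion fun v => (Polynomial.X ^ d - C (v * B / A) : ℂ[X]).roots.toFinset, ?_⟩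
    intro A B x
    rw [Finset.mem_biUnion]
    refine exists_congr fun v => and_congr_right fun _ => ?_
    have hm : (Polynomial.X ^ d - C (v * B / A) : ℂ[X]).Monic := monic_X_pow_sub_C _ (by omega)
    rw [Multiset.mem_toFinset, mem_roots hm.ne_zero, IsRoot.def, eval_sub, eval_pow, eval_X, eval_C,
      sub_eq_zero]
  have hbound : ∀ AB : ℤ × ℤ, ∃ κ : ℕ, AB.1 ≠ 0 → AB.2 ≠ 0 →
      ∀ (X Y z c : ℤ) (r : ℕ), IsCoprime X Y → Y ≠ 0 → z ≠ 0 → c ≠ 0 →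
      c.natAbs.primeFactors.card ≤ s → AB.1 * X ^ d + AB.2 * Y ^ d = c * z ^ r →
      (∃ a : Option ℂ, (∀ x, a = some x → x ∈ PP AB.1 AB.2) ∧ NearQ (d * M) X Y a) →
      min (r : ℝ) (Real.log (max |(X : ℝ)| |(Y : ℝ)|)) ≤ (2 + Real.log (rad c)) ^ κ := by
    rintro ⟨A, B⟩
    by_cases hA : A = 0
    · exact ⟨0, fun h => absurd hA h⟩
    by_cases hB : B = 0
    · exact ⟨0, fun _ h => absurd hB h⟩
    have hAc : (A : ℂ) ≠ 0 := Int.cast_ne_zero.2 hA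
    have hBc : (B : ℂ) ≠ 0 := Int.cast_ne_zero.2 hB
    obtain ⟨κ, hκ⟩ := fcV d hd A B hA hB (PP A B) (by
      intro x hx
      obtain ⟨v, hv, hxv⟩ := (hPP A B x).1 hx
      have h1 : IsAlgebraic ℚ (x ^ d) := by
        rw [hxv]
        exact ((hP v hv).mul (isAlgebraic_intCast B)).mul (isAlgebraic_intCast A).inv
      exact (IsIntegral.of_pow (by omega) h1.isIntegral).isAlgebraic) (by
      rcases Nat.lt_or_ge 2 d with h | h
      · exact Or.inl h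
      · right
        intro x hx
        obtain ⟨v, hv, hxv⟩ := (hPP A B x).1 hx
        have hne : v ≠ -1 := by
          rintro rfl
          exact hP2 (by omega) hv
        have e : (A : ℂ) * x ^ d + B = B * (v + 1) := by
          rw [hxv]
          field_simp
        rw [e]
        refine mul_ne_zero hBc fun h0 => hne (eq_neg_of_add_eq_zero_left h0)) (d * M) s
    exact ⟨κ, fun _ _ => hκ⟩
  choose κf hκf using hbound
  obtain ⟨κ₁, hκ₁⟩ : ∃ κ₁, κ₁ = ∑ AB ∈ Finset.Icc (-(Λ : ℤ)) Λ ×ˢ Finset.Icc (-(Λ : ℤ)) Λ, κf AB :=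
    ⟨_, rfl⟩
  refine ⟨Λ + d + κ₁ + (Λ + d * (M * Λ)), ?_⟩
  intro a b c x y z p q r ha hb hc hcs hx hy hz hp hq ⟨m, hm⟩ ⟨n, hn⟩ hg heq ⟨w, hwP, hnear⟩
  obtain ⟨A, α, h1, h2, h3, h4⟩ := sunit_dth S d (by omega) a ha
  obtain ⟨B, β, k1, k2, k3, k4⟩ := sunit_dth S d (by omega) b hb
  rw [← hΛ] at h4 k4
  obtain ⟨X, hX⟩ : ∃ X, X = α * x ^ m := ⟨_, rfl⟩
  obtain ⟨Y, hY⟩ : ∃ Y, Y = β * y ^ n := ⟨_, rfl⟩
  have eX : a * x ^ p = A * X ^ d := by
    rw [h1, hX, hm, mul_pow, ← pow_mul, mul_comm m d]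
    ring
  have eY : b * y ^ q = B * Y ^ d := by
    rw [k1, hY, hn, mul_pow, ← pow_mul, mul_comm n d]
    ring
  have hX0 : X ≠ 0 := by rw [hX]; exact mul_ne_zero h3 (pow_ne_zero _ hx)
  have hY0 : Y ≠ 0 := by rw [hY]; exact mul_ne_zero k3 (pow_ne_zero _ hy)
  have hcop : IsCoprime X Y := by
    rw [Int.isCoprime_iff_gcd_eq_one]
    by_contra hne
    obtain ⟨l, hl, hld⟩ := Nat.exists_prime_and_dvd hne
    have hlp : Prime (l : ℤ) := Nat.prime_iff_prime_int.1 hl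
    have g1 : (l : ℤ) ∣ X := (Int.natCast_dvd_natCast.2 hld).trans (Int.gcd_dvd_left _ _)
    have g2 : (l : ℤ) ∣ Y := (Int.natCast_dvd_natCast.2 hld).trans (Int.gcd_dvd_right _ _)
    refine gcd_cop a b c x y z p q r hp hq hg heq l hl ?_ ?_
    · rw [hX] at g1
      rcases hlp.dvd_or_dvd g1 with h | h
      · rw [h1]
        exact ((dvd_pow h (by omega)).mul_left _).mul_right _
      · exact (hlp.dvd_of_dvd_pow h).mul_left _
    · rw [hY] at g2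
      rcases hlp.dvd_or_dvd g2 with h | h
      · rw [k1]
        exact ((dvd_pow h (by omega)).mul_left _).mul_right _
      · exact (hlp.dvd_of_dvd_pow h).mul_left _
  rw [eX, eY] at hnear heq ⊢
  have l1 : 0 ≤ Real.log (rad c : ℝ) := Real.log_natCast_nonneg _
  obtain ⟨R, hR⟩ : ∃ R, R = 2 + Real.log (rad c : ℝ) := ⟨_, rfl⟩
  rw [← hR]
  have hR2 : 2 ≤ R := by rw [hR]; linarith
  obtain ⟨W, hW⟩ : ∃ W, W = max |(X : ℝ)| |(Y : ℝ)| := ⟨_, rfl⟩
  have hX1 : (1 : ℝ) ≤ |(X : ℝ)| := by exact_mod_cast Int.one_le_abs hX0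
  have hW1 : 1 ≤ W := by rw [hW]; exact hX1.trans (le_max_left _ _)
  have hΛr : (1 : ℝ) ≤ Λ := by exact_mod_cast hΛ1
  have hAΛ : |(A : ℝ)| ≤ Λ := by exact_mod_cast h4
  have hBΛ : |(B : ℝ)| ≤ Λ := by exact_mod_cast k4
  have hlogΛ : Real.log (Λ : ℝ) ≤ Λ := (Real.log_le_self (by linarith))
  -- the height of the terms
  have hH : Real.log (max |((A * X ^ d : ℤ) : ℝ)| |((B * Y ^ d : ℤ) : ℝ)|) ≤
      Λ + d * Real.log W := by
    have g1 : max |((A * X ^ d : ℤ) : ℝ)| |((B * Y ^ d : ℤ) : ℝ)| ≤ Λ * W ^ d := by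
      push_cast
      rw [abs_mul, abs_mul, abs_pow, abs_pow]
      refine max_le ?_ ?_
      · exact mul_le_mul hAΛ (pow_le_pow_left₀ (abs_nonneg _) (by rw [hW]; exact le_max_left _ _) d)
          (by positivity) (by positivity)
      · exact mul_le_mul hBΛ (pow_le_pow_left₀ (abs_nonneg _) (by rw [hW]; exact le_max_right _ _) d)
          (by positivity) (by positivity)
    have g2 : 0 < max |((A * X ^ d : ℤ) : ℝ)| |((B * Y ^ d : ℤ) : ℝ)| := by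
      refine lt_max_of_lt_left (abs_pos.2 (Int.cast_ne_zero.2 (mul_ne_zero h2 (pow_ne_zero _ hX0))))
    have g3 := Real.log_le_log g2 g1
    rw [Real.log_mul (by linarith) (by positivity), Real.log_pow] at g3
    linarith
  have hlW : 0 ≤ Real.log W := Real.log_nonneg hW1
  have hR1 : (1 : ℝ) ≤ R := by linarith
  by_cases hbig : (Λ : ℝ) ^ M ≤ W
  · obtain ⟨w', hw1, hw2⟩ := near_tr d M hd A B X Y h2 k2 hY0 Λ hBΛ hAΛ (by rw [← hW]; exact hbig) w hnear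
    have g1 := hκf (A, B) h2 k2 X Y z c r hcop hY0 hz hc hcs heq ⟨w', fun v hv => by
      obtain ⟨u, hu1, hu2⟩ := hw1 v hv
      exact (hPP A B v).2 ⟨u, hwP u hu1, hu2⟩, hw2⟩
    rw [← hW, ← hR] at g1
    have g2 : κf (A, B) ≤ κ₁ := by
      rw [hκ₁]
      refine Finset.single_le_sum (f := κf) (fun _ _ => Nat.zero_le _) ?_
      rw [Finset.mem_product]
      exact ⟨Finset.mem_Icc.2 (abs_le.1 h4), Finset.mem_Icc.2 (abs_le.1 k4)⟩
    have g3 : min (r : ℝ) (Real.log W) ≤ R ^ κ₁ := g1.trans (pow_le_pow_right₀ hR1 g2)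
    have hd1 : (1 : ℝ) ≤ d := by exact_mod_cast (by omega : 1 ≤ d)
    have g4 : min (r : ℝ) (Real.log (max |((A * X ^ d : ℤ) : ℝ)| |((B * Y ^ d : ℤ) : ℝ)|)) ≤
        Λ + d * R ^ κ₁ := by
      rcases le_total (r : ℝ) (Real.log W) with h | h
      · rw [min_eq_left h] at g3
        refine (min_le_left _ _).trans ?_
        nlinarith [(Nat.cast_nonneg r : (0 : ℝ) ≤ r)]
      · rw [min_eq_right h] at g3
        refine (min_le_right _ _).trans (hH.trans ?_)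
        nlinarith
    have g5 : (1 : ℝ) ≤ R ^ κ₁ := one_le_pow₀ hR1
    have g6 : ((Λ + d : ℕ) : ℝ) ≤ 2 ^ (Λ + d) := by exact_mod_cast (Nat.lt_two_pow_self).le
    push_cast at g6
    calc _ ≤ Λ + d * R ^ κ₁ := g4
      _ ≤ (Λ + d) * R ^ κ₁ := by nlinarith
      _ ≤ 2 ^ (Λ + d) * R ^ κ₁ := mul_le_mul_of_nonneg_right g6 (by positivity)
      _ ≤ R ^ (Λ + d) * R ^ κ₁ :=
          mul_le_mul_of_nonneg_right (pow_le_pow_left₀ (by norm_num) hR2 _) (by positivity)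
      _ = R ^ (Λ + d + κ₁) := by rw [← pow_add]
      _ ≤ _ := pow_le_pow_right₀ hR1 (Nat.le_add_right _ _)
  · push Not at hbig
    have g1 : Real.log W ≤ M * Λ := by
      have := Real.log_le_log (by linarith) hbig.le
      rw [Real.log_pow] at this
      exact this.trans (mul_le_mul_of_nonneg_left hlogΛ (Nat.cast_nonneg _))
    have g2 : ((Λ + d * (M * Λ) : ℕ) : ℝ) ≤ 2 ^ (Λ + d * (M * Λ)) := by
      exact_mod_cast (Nat.lt_two_pow_self).le
    calc _ ≤ Real.log (max |((A * X ^ d : ℤ) : ℝ)| |((B * Y ^ d : ℤ) : ℝ)|) := min_le_right _ _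
      _ ≤ Λ + d * Real.log W := hH
      _ ≤ Λ + d * (M * Λ) := by
          have : (d : ℝ) * Real.log W ≤ d * (M * Λ) := mul_le_mul_of_nonneg_left g1 (Nat.cast_nonneg _)
          linarith
      _ = ((Λ + d * (M * Λ) : ℕ) : ℝ) := by push_cast; ring
      _ ≤ 2 ^ (Λ + d * (M * Λ)) := g2
      _ ≤ R ^ (Λ + d * (M * Λ)) := pow_le_pow_left₀ (by norm_num) hR2 _
      _ ≤ _ := pow_le_pow_right₀ hR1 (Nat.le_add_left _ _)

end Run7.h197.Z
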